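import Pool.Agent.Helper2.UN.SDefs
import Pool.Agent.Helper20.UN.SG
import Pool.Agent.Helper93.SR.NormC
import Pool.Agent.Helper21.MT.Zar

/-!
Square zero elements of the derived Lie algebra of a unitary pair exponentiate into the group,
and the special unitary group is contained in the group.
-/

set_option linter.unusedSimpArgs false
set_option linter.unusedSectionVars false

open Module MTPairs

namespace UN

open MTP

variable {K : Type*} [Field K] {m : Type*} [Fintype m] [DecidableEq m]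
  {Γ : Subgroup (Equiv.Perm (m → K))} {J : Matrix m m K}
  {G : Subgroup (Matrix.GeneralLinearGroup m K)} {π : Matrix m m K} {W W' : Submodule K (m → K)}

lemma gb_fJ (v w : m → K) : fJ J v w = v ⬝ᵥ J.mulVec w := Matrix.toBilin'_apply' J v w

lemma gb_left (h : IsCompl W W') {v : m → K} (hv : v ∈ W) : zW h v = v := by
  unfold zW
  rw [LinearMap.sub_apply, LinearMap.smul_apply, Submodule.projection_apply_of_mem_left h hv,
    Module.End.one_apply, two_smul, add_sub_cancel_right]

lemma gb_right (h : IsCompl W W') {v : m → K} (hv : v ∈ W') : zW h v = -v := by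
  unfold zW
  rw [LinearMap.sub_apply, LinearMap.smul_apply, Submodule.projection_apply_of_mem_right h hv,
    Module.End.one_apply, smul_zero, zero_sub]

lemma gb_ext (h : IsCompl W W') {f g : Module.End K (m → K)} (h1 : ∀ v ∈ W, f v = g v)
    (h2 : ∀ v ∈ W', f v = g v) : f = g := by
  apply LinearMap.ext
  intro v
  obtain ⟨a, ha, b, hb, rfl⟩ := Submodule.mem_sup.mp (h.sup_eq_top ▸ Submodule.mem_top (x := v))
  rw [map_add, map_add, h1 a ha, h2 b hb]

lemma gb_comm (h : IsCompl W W') {f : Module.End K (m → K)} (h1 : ∀ v ∈ W, f v ∈ W)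
    (h2 : ∀ v ∈ W', f v ∈ W') : f * zW h = zW h * f := by
  apply gb_ext h
  · intro v hv
    rw [Module.End.mul_apply, Module.End.mul_apply, gb_left h hv, gb_left h (h1 v hv)]
  · intro v hv
    rw [Module.End.mul_apply, Module.End.mul_apply, gb_right h hv, gb_right h (h2 v hv), map_neg]

lemma gb_GE (hW : IsUnitarySplit Γ J G W W') {f : Module.End K (m → K)} (hf : f ∈ GE G) :
    f * zW hW.compl = zW hW.compl * f := by
  obtain ⟨g, hg, rfl⟩ := hf
  apply gb_comm
  · intro v hv
    rw [Matrix.toLin'_apply]; exact hW.stable g hg v hv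
  · intro v hv
    rw [Matrix.toLin'_apply]; exact hW.stable' g hg v hv

/-- Members of `SC` are given by conjugates. -/
lemma gb_conj {p : Module.End K (m → K)} (hp : p ∈ SC (GE G) (TE Γ) (Matrix.toLin' π)) :
    IsConj Γ G π (LinearMap.toMatrix' p) := by
  obtain ⟨τ, ⟨θ, hθ, hτ⟩, a, ⟨g, hg, rfl⟩, b, hb, hab, hba, rfl⟩ := hp
  refine ⟨θ, hθ, g, hg, fun v => ?_⟩
  rw [← Matrix.toLin'_apply (LinearMap.toMatrix' _), Matrix.toLin'_toMatrix']
  have e1 : b ((g : Matrix m m K).mulVec (θ v)) = θ v := by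
    rw [← Matrix.toLin'_apply (g : Matrix m m K)]
    exact LinearMap.congr_fun hba (θ v)
  rw [Module.End.mul_apply, Module.End.mul_apply, e1, hτ, Matrix.toLin'_apply,
    Matrix.toLin'_apply]

/-- The matrices of `G`. -/
def gM (G : Subgroup (Matrix.GeneralLinearGroup m K)) : Set (Matrix m m K) :=
  {A | ∃ g ∈ G, A = (g : Matrix m m K)}

lemma gb_repr (A : Matrix m m K) (ij : m × m) :
    (Matrix.stdBasis K m m).repr A ij = A ij.1 ij.2 := by
  let φ : Matrix m m K →ₗ[K] K :=
    { toFun := fun A => A ij.1 ij.2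
      map_add' := fun A B => rfl
      map_smul' := fun c A => rfl }
  have h : (Matrix.stdBasis K m m).coord ij = φ := by
    apply (Matrix.stdBasis K m m).ext
    rintro ⟨k, l⟩
    rw [Basis.coord_apply, Basis.repr_self, Matrix.stdBasis_eq_single]
    change _ = Matrix.single k l (1 : K) ij.1 ij.2
    rw [Finsupp.single_apply, Matrix.single_apply]
    congr 1
    obtain ⟨a, b⟩ := ij
    simp [Prod.ext_iff]
  have h2 := LinearMap.congr_fun h A
  rwa [Basis.coord_apply] at h2

lemma gb_ev (A : Matrix m m K) (p : MvPolynomial (m × m) K) :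
    ev (Matrix.stdBasis K m m) A p = MvPolynomial.eval (fun ij => A ij.1 ij.2) p := by
  unfold ev
  have e : ⇑((Matrix.stdBasis K m m).repr A) = fun ij => A ij.1 ij.2 := by
    funext ij
    exact gb_repr A ij
  rw [e, MvPolynomial.aeval_eq_eval]

/-- Square zero elements of the Lie algebra of `G` give elements of `G`. -/
lemma gb_exp [CharZero K] (hG : ZariskiClosed G) {x : Matrix m m K}
    (hx : x ∈ lieOf (Matrix.stdBasis K m m) (gM G)) (hxx : x * x = 0) :
    ∃ g ∈ G, (g : Matrix m m K) = 1 + x := by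
  obtain ⟨P, hP⟩ := hG
  have h1 : (1 + x) * (1 - x) = 1 := by
    rw [add_mul, mul_sub, mul_sub, one_mul, one_mul, mul_one, hxx]; abel
  have h2 : (1 - x) * (1 + x) = 1 := by
    rw [sub_mul, mul_add, mul_add, one_mul, one_mul, mul_one, hxx]; abel
  refine ⟨⟨1 + x, 1 - x, h1, h2⟩, ?_, rfl⟩
  rw [hP]
  intro p hp
  have h3 := lieOf_exp (b := Matrix.stdBasis K m m) (G := gM G) ⟨1, G.one_mem, rfl⟩ hx hxx 1
    (p := p) (by
      rintro A ⟨g, hg, rfl⟩
      rw [gb_ev]
      exact (hP g).mp hg p hp)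
  rw [one_smul, gb_ev] at h3
  exact h3

/-- The Lie algebra of `G`, up to `1` and `z`. -/
def gN (z : Module.End K (m → K)) (G : Subgroup (Matrix.GeneralLinearGroup m K)) :
    Submodule K (Module.End K (m → K)) where
  carrier := {x | ∃ a : Module.End K (m → K),
    LinearMap.toMatrix' a ∈ lieOf (Matrix.stdBasis K m m) (gM G) ∧ a * z = z * a ∧
    ∃ s t : K, x = a + s • 1 + t • z}
  add_mem' := by
    rintro _ _ ⟨a, ha, haz, s, t, rfl⟩ ⟨a', ha', haz', s', t', rfl⟩
    refine ⟨a + a', ?_, ?_, s + s', t + t', ?_⟩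
    · rw [map_add]; exact lieOf_add ha ha'
    · rw [add_mul, mul_add, haz, haz']
    · module
  zero_mem' := ⟨0, by rw [map_zero]; exact lieOf_zero, by simp, 0, 0, by simp⟩
  smul_mem' := by
    rintro c _ ⟨a, ha, haz, s, t, rfl⟩
    refine ⟨c • a, ?_, ?_, c * s, c * t, ?_⟩
    · rw [map_smul]; exact lieOf_smul c ha
    · rw [smul_mul_assoc, mul_smul_comm, haz]
    · module

lemma gb_br {z : Module.End K (m → K)} {x y : Module.End K (m → K)} (hx : x ∈ gN z G)
    (hy : y ∈ gN z G) :
    LinearMap.toMatrix' (x * y - y * x) ∈ lieOf (Matrix.stdBasis K m m) (gM G) ∧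
      (x * y - y * x) * z = z * (x * y - y * x) := by
  obtain ⟨a, ha, haz, s, t, rfl⟩ := hx
  obtain ⟨a', ha', haz', s', t', rfl⟩ := hy
  have e : (a + s • 1 + t • z) * (a' + s' • 1 + t' • z) - (a' + s' • 1 + t' • z) *
      (a + s • 1 + t • z) = a * a' - a' * a := by
    simp only [add_mul, mul_add, smul_mul_assoc, mul_smul_comm, one_mul, mul_one, haz, haz']
    module
  rw [e]
  constructor
  · rw [map_sub, LinearMap.toMatrix'_mul, LinearMap.toMatrix'_mul]
    exact lieOf_comm ha ha'
  · rw [sub_mul, mul_sub]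
    have k1 : a * a' * z = z * (a * a') := by rw [mul_assoc, haz', ← mul_assoc, haz, mul_assoc]
    have k2 : a' * a * z = z * (a' * a) := by rw [mul_assoc, haz, ← mul_assoc, haz', mul_assoc]
    rw [k1, k2]

lemma gb_UL [CharZero K] (D : IsStrongMTPair Γ J G π) (hW : IsUnitarySplit Γ J G W W') :
    UL (fJ J) (zW hW.compl) (GE G) (TE Γ) (Matrix.toLin' π) ≤ gN (zW hW.compl) G := by
  apply lieGen_le
  · intro x hx y hy
    obtain ⟨h1, h2⟩ := gb_br hx hy
    exact ⟨_, h1, h2, 0, 0, by simp⟩
  · rintro _ ⟨s, ⟨p, hp, hsk, rfl⟩, rfl⟩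
    have hco := smat_cochar D (gb_conj hp)
    have hGE : ∀ t : K, t ≠ 0 → ∃ g ∈ G, 1 + (t - 1) • LinearMap.toMatrix' p =
        (g : Matrix m m K) := by
      intro t ht
      obtain ⟨g, hg, hgt⟩ := hco.2 t ht
      refine ⟨g, hg, ?_⟩
      rw [hgt]; module
    refine ⟨(2 : K) • p, ?_, ?_, -1, -(LinearMap.trace K (m → K) (zW hW.compl * ((2 : K) • p - 1)) /
      (finrank K (m → K) : K)), ?_⟩
    · rw [map_smul]
      apply lieOf_smul
      apply lieOf_cochar
      · rintro _ ⟨g, hg, rfl⟩ _ ⟨h, hh, rfl⟩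
        exact ⟨g * h, G.mul_mem hg hh, rfl⟩
      · exact hGE
    · have h1 : p * zW hW.compl = zW hW.compl * p := by
        obtain ⟨g, hg, hgt⟩ := hGE 2 two_ne_zero
        have h2 : 1 + p ∈ GE G := by
          refine ⟨g, hg, ?_⟩
          rw [← hgt]
          have : (2 : K) - 1 = 1 := by norm_num
          rw [this, one_smul, map_add, Matrix.toLin'_one, Matrix.toLin'_toMatrix']
          rfl
        have h3 := gb_GE hW h2
        rw [add_mul, mul_add, one_mul, mul_one] at h3
        exact add_left_cancel h3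
      rw [smul_mul_assoc, mul_smul_comm, h1]
    · unfold nz
      module

/-- GB1: the square zero elements of the derived Lie algebra exponentiate into `G`. -/
theorem exp_mem [CharZero K] (D : IsStrongMTPair Γ J G π) (hW : IsUnitarySplit Γ J G W W')
    (_hne : W ≠ ⊥) {N : Module.End K (m → K)}
    (hN : N ∈ Submodule.span K {w | ∃ x ∈ UL (fJ J) (zW hW.compl) (GE G) (TE Γ)
      (Matrix.toLin' π), ∃ y ∈ UL (fJ J) (zW hW.compl) (GE G) (TE Γ) (Matrix.toLin' π),
      w = x * y - y * x}) (hNN : N * N = 0) : 1 + N ∈ GE G := by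
  have h1 : LinearMap.toMatrix' N ∈ lieOf (Matrix.stdBasis K m m) (gM G) := by
    refine Submodule.span_induction (p := fun x _ => LinearMap.toMatrix' x ∈
      lieOf (Matrix.stdBasis K m m) (gM G)) ?_ ?_ ?_ ?_ hN
    · rintro _ ⟨x, hx, y, hy, rfl⟩
      exact (gb_br (gb_UL D hW hx) (gb_UL D hW hy)).1
    · rw [map_zero]; exact lieOf_zero
    · intro x y _ _ hx hy
      rw [map_add]; exact lieOf_add hx hy
    · intro c x _ hx
      rw [map_smul]; exact lieOf_smul c hx
  have h2 : LinearMap.toMatrix' N * LinearMap.toMatrix' N = 0 := by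
    rw [← LinearMap.toMatrix'_mul, hNN, map_zero]
  obtain ⟨g, hg, hgx⟩ := gb_exp D.closed h1 h2
  refine ⟨g, hg, ?_⟩
  rw [hgx, map_add, Matrix.toLin'_one, Matrix.toLin'_toMatrix']
  rfl

lemma gb_zsk (hW : IsUnitarySplit Γ J G W W') : IsSk (fJ J) (zW hW.compl) := by
  intro v w
  obtain ⟨a, ha, b, hb, rfl⟩ := Submodule.mem_sup.mp
    (hW.compl.sup_eq_top ▸ Submodule.mem_top (x := v))
  obtain ⟨a', ha', b', hb', rfl⟩ := Submodule.mem_sup.mp
    (hW.compl.sup_eq_top ▸ Submodule.mem_top (x := w))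
  have h1 : fJ J a a' = 0 := by rw [gb_fJ]; exact hW.iso a ha a' ha'
  have h2 : fJ J b b' = 0 := by rw [gb_fJ]; exact hW.iso' b hb b' hb'
  rw [map_add (zW hW.compl), map_add (zW hW.compl), gb_left hW.compl ha, gb_left hW.compl ha',
    gb_right hW.compl hb, gb_right hW.compl hb']
  simp only [map_add, map_neg, LinearMap.add_apply, LinearMap.neg_apply, h1, h2]
  ring

lemma gb_inC [CharZero K] (D : IsStrongMTPair Γ J G π) (hW : IsUnitarySplit Γ J G W W')
    {x : Module.End K (m → K)} (hx : x ∈ UL (fJ J) (zW hW.compl) (GE G) (TE Γ)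
      (Matrix.toLin' π)) : InC (fJ J) (zW hW.compl) x := by
  let M : Submodule K (Module.End K (m → K)) :=
    { carrier := {x | InC (fJ J) (zW hW.compl) x}
      add_mem' := fun hx hy => hx.add hy
      zero_mem' := InC.zero
      smul_mem' := fun c x hx => hx.smul c }
  have : UL (fJ J) (zW hW.compl) (GE G) (TE Γ) (Matrix.toLin' π) ≤ M := by
    apply lieGen_le
    · intro x hx y hy
      exact InC.br hx hy
    · rintro _ ⟨s, hs, rfl⟩
      have h1 : IsSk (fJ J) s := by
        obtain ⟨p, hp, hsk, rfl⟩ := hs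
        exact hsk
      have h2 := gb_UL D hW (subset_lieGen _ ⟨s, hs, rfl⟩)
      have hz : InC (fJ J) (zW hW.compl) (zW hW.compl) := ⟨gb_zsk hW, rfl⟩
      have h3 : s * zW hW.compl = zW hW.compl * s := by
        obtain ⟨a, -, haz, c, t, hst⟩ := h2
        have e : s = a + c • 1 + t • zW hW.compl +
            (LinearMap.trace K (m → K) (zW hW.compl * s) / (finrank K (m → K) : K)) •
              zW hW.compl := by
          rw [← hst]; unfold nz; abel
        rw [e]
        simp only [add_mul, mul_add, smul_mul_assoc, mul_smul_comm, one_mul, mul_one, haz]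
      exact InC.sub ⟨h1, h3⟩ (hz.smul _)
  exact this hx

/-- GB2: the special unitary group. -/
theorem containsSU [CharZero K] (D : IsStrongMTPair Γ J G π) (hW : IsUnitarySplit Γ J G W W')
    (hne : W ≠ ⊥) (hzz : zW hW.compl * zW hW.compl = 1)
    (hder : ∀ x ∈ UL (fJ J) (zW hW.compl) (GE G) (TE Γ) (Matrix.toLin' π),
      x ∈ Submodule.span K {w | ∃ x ∈ UL (fJ J) (zW hW.compl) (GE G) (TE Γ)
      (Matrix.toLin' π), ∃ y ∈ UL (fJ J) (zW hW.compl) (GE G) (TE Γ) (Matrix.toLin' π),
      w = x * y - y * x})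
    (hsl : ∀ φ : Module.End K (Wz (zW hW.compl)), LinearMap.trace K _ φ = 0 →
      φ ∈ (UL (fJ J) (zW hW.compl) (GE G) (TE Γ) (Matrix.toLin' π)).map (RR hzz)) :
    ContainsSU J G W W' := by
  intro g hgJ hgW' hgW hdet
  have hnd : (fJ J).Nondegenerate :=
    LinearMap.BilinForm.nondegenerate_toBilin'_iff_det_ne_zero.mpr D.det
  set z := zW hW.compl with hz
  set ω := fJ J with hω
  have hWz : Wz z = W := by
    ext v
    rw [mem_Wz]
    constructor
    · intro hv
      obtain ⟨a, ha, b, hb, rfl⟩ := Submodule.mem_sup.mp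
        (hW.compl.sup_eq_top ▸ Submodule.mem_top (x := v))
      rw [map_add, gb_left hW.compl ha, gb_right hW.compl hb] at hv
      have h1 : -b = b := add_left_cancel hv
      have h2 : (2 : K) • b = 0 := by
        rw [two_smul]; nth_rewrite 1 [← h1]; exact neg_add_cancel b
      rw [(smul_eq_zero.mp h2).resolve_left two_ne_zero, add_zero]
      exact ha
    · exact gb_left hW.compl
  have hisoW : ∀ v ∈ W, ∀ w ∈ W, ω v w = 0 := fun v hv w hw => by
    rw [hω, gb_fJ]; exact hW.iso v hv w hw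
  have hisoW' : ∀ v ∈ W', ∀ w ∈ W', ω v w = 0 := fun v hv w hw => by
    rw [hω, gb_fJ]; exact hW.iso' v hv w hw
  set f : Module.End K (m → K) := Matrix.toLin' (g : Matrix m m K) with hf
  have hfW : ∀ v ∈ W, f v ∈ W := hgW
  have hfW' : ∀ v ∈ W', f v ∈ W' := hgW'
  have hfz : f * z = z * f := gb_comm hW.compl hfW hfW'
  have hfiso : ∀ v w, ω (f v) (f w) = ω v w := by
    intro v w
    rw [hω, gb_fJ, gb_fJ, hf, Matrix.toLin'_apply, Matrix.toLin'_apply]
    have e : ((g : Matrix m m K).mulVec v) ⬝ᵥ J.mulVec ((g : Matrix m m K).mulVec w) =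
        v ⬝ᵥ ((g : Matrix m m K).transpose * J * g).mulVec w := by
      rw [← Matrix.mulVec_mulVec, ← Matrix.mulVec_mulVec, Matrix.dotProduct_mulVec v,
        Matrix.vecMul_transpose]
    rw [e, hgJ]
  -- determinants
  have hdet' : LinearMap.det (RR hzz f) = 1 := by
    rw [← hdet]
    have e := LinearMap.det_conj (RR hzz f) (LinearEquiv.ofEq _ _ hWz)
    rw [← e]
    congr 1
    ext v
    have h1 : ((RR hzz f ((LinearEquiv.ofEq _ _ hWz).symm v) : Wz z) : m → K) =
        f ((LinearEquiv.ofEq _ _ hWz).symm v : Wz z) := RR_coe hzz hfz _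
    exact congrFun h1 _
  -- the monoid
  let M : Submonoid (Module.End K (Wz z)) :=
    { carrier := {φ | ∃ γ ∈ GE G, (∀ v w, ω (γ v) (γ w) = ω v w) ∧ RR hzz γ = φ}
      one_mem' := by
        refine ⟨1, ⟨1, G.one_mem, ?_⟩, fun v w => rfl, RR_one hzz⟩
        rw [Units.val_one, Matrix.toLin'_one]; rfl
      mul_mem' := by
        rintro _ _ ⟨γ, ⟨a, ha, rfl⟩, h1, rfl⟩ ⟨γ', ⟨b, hb, rfl⟩, h2, rfl⟩
        refine ⟨Matrix.toLin' (a : Matrix m m K) * Matrix.toLin' (b : Matrix m m K),
          ⟨a * b, G.mul_mem ha hb, ?_⟩, ?_, RR_mul hzz (gb_GE hW ⟨b, hb, rfl⟩)⟩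
        · rw [Units.val_mul, Matrix.toLin'_mul]; rfl
        · intro v w
          rw [Module.End.mul_apply, Module.End.mul_apply, h1, h2] }
  have hM : RR hzz f ∈ M := by
    apply sl_mem_of_transvections M _ hdet'
    intro N hNN _
    have htr : LinearMap.trace K _ N = 0 := by
      have h1 : IsNilpotent N := ⟨2, by rw [pow_two, hNN]⟩
      exact (LinearMap.isNilpotent_trace_of_isNilpotent h1).eq_zero
    obtain ⟨x, hx, hxN⟩ := hsl N htr
    have hxC := gb_inC D hW hx
    have hxx2 : RR hzz (x * x) = 0 := by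
      rw [RR_mul hzz hxC.comm, hxN, hNN]
    have hxxz : (x * x) * z = z * (x * x) := by
      rw [mul_assoc, hxC.comm, ← mul_assoc, hxC.comm, mul_assoc]
    have hxxW : ∀ v ∈ W, x (x v) = 0 := by
      intro v hv
      have h1 := RR_coe hzz hxxz ⟨v, by rw [hWz]; exact hv⟩
      rw [hxx2] at h1
      exact h1.symm
    have hxW' : ∀ v ∈ W', x v ∈ W' := by
      intro v hv
      have h1 : x (z v) = z (x v) := LinearMap.congr_fun hxC.comm v
      rw [gb_right hW.compl hv, map_neg] at h1
      obtain ⟨a, ha, b, hb, hab⟩ := Submodule.mem_sup.mp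
        (hW.compl.sup_eq_top ▸ Submodule.mem_top (x := x v))
      rw [← hab, map_add, gb_left hW.compl ha, gb_right hW.compl hb, neg_add] at h1
      have h2 : -a = a := add_right_cancel h1
      have h3 : (2 : K) • a = 0 := by
        rw [two_smul]; nth_rewrite 1 [← h2]; exact neg_add_cancel a
      rw [← hab, (smul_eq_zero.mp h3).resolve_left two_ne_zero, zero_add]
      exact hb
    have hxx : x * x = 0 := by
      apply gb_ext hW.compl
      · exact hxxW
      · intro v hv
        apply hnd.1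
        intro w
        obtain ⟨a, ha, b, hb, rfl⟩ := Submodule.mem_sup.mp
          (hW.compl.sup_eq_top ▸ Submodule.mem_top (x := w))
        have e1 : ω (x (x v)) b = 0 := hisoW' _ (hxW' _ (hxW' _ hv)) b hb
        have e2 : ω (x (x v)) a = 0 := by
          rw [hxC.sk, hxC.sk, hxxW a ha, map_zero, neg_zero, neg_zero]
        change ω (x (x v)) (a + b) = 0
        rw [map_add, e1, e2, add_zero]
    refine ⟨1 + x, exp_mem D hW hne (hder x hx) hxx, ?_, ?_⟩
    · intro v w
      have h1 : x (x w) = 0 := LinearMap.congr_fun hxx w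
      simp only [LinearMap.add_apply, Module.End.one_apply, map_add]
      rw [hxC.sk v w, hxC.sk v (x w), h1, map_zero]
      ring
    · rw [map_add, RR_one, hxN]
  obtain ⟨γ, hγ, hγiso, hγf⟩ := hM
  have hγz := gb_GE hW hγ
  have hfγ : f = γ := by
    have hagree : ∀ v ∈ W, f v = γ v := by
      intro v hv
      have h1 := RR_coe hzz hfz ⟨v, by rw [hWz]; exact hv⟩
      have h2 := RR_coe hzz hγz ⟨v, by rw [hWz]; exact hv⟩
      rw [← h1, ← h2, hγf]
    apply gb_ext hW.compl hagree
    intro v hv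
    have hγW' : γ v ∈ W' := by
      obtain ⟨a, ha, rfl⟩ := hγ
      rw [Matrix.toLin'_apply]; exact hW.stable' a ha v hv
    rw [← sub_eq_zero]
    apply hnd.1
    intro w
    have hmap : W.map f = W := by
      apply Submodule.eq_of_le_of_finrank_le
      · rintro _ ⟨w, hw, rfl⟩
        exact hfW w hw
      · have hinj : Function.Injective f := by
          rw [← LinearMap.ker_eq_bot, LinearMap.ker_eq_bot']
          intro v hv
          apply hnd.1
          intro w
          rw [← hfiso, hv, map_zero, LinearMap.zero_apply]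
        rw [LinearEquiv.finrank_eq (Submodule.equivMapOfInjective f hinj W)]
    obtain ⟨a, ha, b, hb, rfl⟩ := Submodule.mem_sup.mp
      (hW.compl.sup_eq_top ▸ Submodule.mem_top (x := w))
    rw [← hmap] at ha
    obtain ⟨a, ha, rfl⟩ := ha
    rw [map_add, hisoW' _ (W'.sub_mem (hfW' v hv) hγW') b hb, add_zero, map_sub,
      LinearMap.sub_apply, hfiso, hagree a ha, hγiso, sub_self]
  obtain ⟨a, ha, hγa⟩ := hγ
  have : g = a := by
    apply Units.ext
    apply Matrix.toLin'.injective
    rw [← hγa]; exact hfγ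
  rw [this]; exact ha

end UN
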