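import Pool.Agent.Helper80.UN.RP1

/-!
Two root lengths force a set of small weights to be symmetric.
-/

open Module

namespace UN

open Pool.Agent.Helper54.MT RootPairing

variable {ι K M N : Type*} [Field K] [CharZero K] [AddCommGroup M] [Module K M]
  [AddCommGroup N] [Module K N] {P : RootPairing ι K M N} [Fintype ι] [P.IsCrystallographic]
  {X : Finset M} {s : M →ₗ[K] K} {c : K}

namespace RE

theorem coroot_ng (i : ι) (x : M) : P.coroot' (P.reflectionPerm i i) x = -P.coroot' i x := by
  rw [← coroot'_reflection, coroot_reflection, pair_self]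
  push_cast
  ring

theorem pair_ng_left (i j : ι) :
    P.pairingIn ℤ (P.reflectionPerm i i) j = -P.pairingIn ℤ i j := by
  have h : ((P.pairingIn ℤ (P.reflectionPerm i i) j : ℤ) : K) =
      ((-P.pairingIn ℤ i j : ℤ) : K) := by
    rw [← pair_cast, TR.root_neg, map_neg, pair_cast]
    push_cast
    ring
  exact_mod_cast h

theorem pair_ng_right (i j : ι) :
    P.pairingIn ℤ i (P.reflectionPerm j j) = -P.pairingIn ℤ i j := by
  have h : ((P.pairingIn ℤ i (P.reflectionPerm j j) : ℤ) : K) =
      ((-P.pairingIn ℤ i j : ℤ) : K) := by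
    rw [← pair_cast, coroot_ng, pair_cast]
    push_cast
    ring
  exact_mod_cast h

theorem coroot_of_neg {i j : ι} (h : P.root i = -P.root j) (x : M) :
    P.coroot' i x = -P.coroot' j x := by
  have e : i = P.reflectionPerm j j := by
    apply P.root.injective
    rw [TR.root_neg, h]
  rw [e, coroot_ng]

/-- A vector killed by all coroots of roots which are not orthogonal to a given one vanishes. -/
theorem zero_of_nonorth [P.IsIrreducible] (a : ι) {v : M}
    (h : ∀ j, P.pairingIn ℤ j a ≠ 0 → P.coroot' j v = 0) : v = 0 := by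
  let q : Submodule K M := ⨅ j ∈ {j | P.pairingIn ℤ j a ≠ 0}, LinearMap.ker (P.coroot' j)
  have hq : ∀ y, y ∈ q ↔ ∀ j, P.pairingIn ℤ j a ≠ 0 → P.coroot' j y = 0 := by
    intro y
    simp only [q, Submodule.mem_iInf, LinearMap.mem_ker, Set.mem_setOf_eq]
  by_contra hv0
  have htop : q = ⊤ := by
    apply IsIrreducible.eq_top_of_invtSubmodule_reflection (P := P)
    · intro j
      rw [Module.End.mem_invtSubmodule]
      intro y hy
      rw [Submodule.mem_comap]
      rw [hq] at hy
      change P.reflection j y ∈ q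
      rw [hq]
      intro i hi
      by_cases hj : P.pairingIn ℤ j a = 0
      · rw [coroot'_reflection]
        apply hy
        intro h0
        apply hi
        have h1 : ((P.pairingIn ℤ (P.reflectionPerm j i) a : ℤ) : K) =
            ((P.pairingIn ℤ i a : ℤ) : K) := by
          rw [← pair_cast, root_reflectionPerm, coroot_reflection, pair_cast, pair_cast, hj]
          simp
        rw [h0] at h1
        exact_mod_cast h1.symm
      · have h1 : P.reflection j y = y := by
          rw [RootPairing.reflection_apply, hy j hj, zero_smul, sub_zero]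
        rw [h1]
        exact hy i hi
    · intro h0
      have : v ∈ q := (hq v).mpr h
      rw [h0, Submodule.mem_bot] at this
      exact hv0 this
  have h1 : P.root a ∈ q := by rw [htop]; exact Submodule.mem_top
  have h2 := (hq _).mp h1 a (by rw [pair_self]; norm_num)
  rw [root_coroot'_eq_pairing, pairing_same] at h2
  exact two_ne_zero h2

theorem cases [P.IsReduced] (h : USit P X s c) {i j : ι} (h1 : i ≠ j)
    (h2 : P.root i ≠ -P.root j) :
    (P.pairingIn ℤ i j = 0 ∧ P.pairingIn ℤ j i = 0) ∨
    (P.pairingIn ℤ i j = 1 ∧ P.pairingIn ℤ j i = 1) ∨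
    (P.pairingIn ℤ i j = -1 ∧ P.pairingIn ℤ j i = -1) ∨
    (P.pairingIn ℤ i j = 1 ∧ P.pairingIn ℤ j i = 2) ∨
    (P.pairingIn ℤ i j = 2 ∧ P.pairingIn ℤ j i = 1) ∨
    (P.pairingIn ℤ i j = -1 ∧ P.pairingIn ℤ j i = -2) ∨
    (P.pairingIn ℤ i j = -2 ∧ P.pairingIn ℤ j i = -1) := by
  have h3 := P.pairingIn_pairingIn_mem_set_of_isCrystal_of_isRed' i j
    (fun hc => h1 (P.root.injective hc)) h2
  have h4 := h.bound i j
  have h5 := h.bound j i
  simp only [Set.mem_insert_iff, Prod.mk.injEq, Set.mem_singleton_iff] at h3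
  omega

/-- There are at most two lengths, of ratio two. -/
theorem len3 [P.IsReduced] [P.IsIrreducible] (h : USit P X s c) (i j : ι) :
    len P i = len P j ∨ len P i = 2 * len P j ∨ len P j = 2 * len P i := by
  by_contra hcon
  have h0 : P.root i = 0 := by
    refine eq_zero_of_coroot' (P := P) {k | len P k = len P j} ⟨j, rfl⟩ ?_ ?_
    · intro m k hk
      change len P (P.reflectionPerm m k) = len P j
      rw [TR.len_perm]
      exact hk
    · intro k hk
      have hk' : len P k = len P j := hk
      rw [pair_cast]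
      have h1 : i ≠ k := fun h1 => hcon (Or.inl (by rw [h1, hk']))
      have h2 : P.root i ≠ -P.root k := fun h2 => hcon (Or.inl (by
        rw [TR.len_of_neg h2, hk']))
      have h3 := cases h h1 h2
      have h4 := pair_len P i k
      have h5 := len_pos P i
      have h6 := len_pos P k
      rcases h3 with ⟨e1, e2⟩ | ⟨e1, e2⟩ | ⟨e1, e2⟩ | ⟨e1, e2⟩ | ⟨e1, e2⟩ | ⟨e1, e2⟩ | ⟨e1, e2⟩
      · rw [e1]; simp
      all_goals
        exfalso
        rw [e1, e2] at h4
        omega
  exact P.ne_zero i h0

/-- The integral values on a weight. -/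
theorem vals (h : USit P X s c) {x : M} (hx : x ∈ X) :
    ∃ f : ι → ℤ, ∀ i, P.coroot' i x = (f i : K) ∧ -1 ≤ f i ∧ f i ≤ 1 := by
  choose f hf hf' using fun i => (h.ws.small x hx).int i
  refine ⟨f, fun i => ⟨hf i, ?_, ?_⟩⟩ <;> rcases hf' i with h1 | h1 | h1 <;> rw [h1] <;> norm_num

/-- The values on a reflected weight. -/
theorem vals_refl (h : USit P X s c) {x : M} (hx : x ∈ X) {f : ι → ℤ}
    (hf : ∀ i, P.coroot' i x = (f i : K) ∧ -1 ≤ f i ∧ f i ≤ 1) (j k : ι) :
    -1 ≤ f k - f j * P.pairingIn ℤ j k ∧ f k - f j * P.pairingIn ℤ j k ≤ 1 := by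
  obtain ⟨g, hg⟩ := vals h (h.ws.refl x hx j)
  have h1 := (hg k).1
  rw [coroot_reflection, (hf k).1, (hf j).1] at h1
  have h2 : f k - f j * P.pairingIn ℤ j k = g k := by exact_mod_cast h1
  rw [h2]
  exact (hg k).2

theorem vals_rs (h : USit P X s c) {x : M} (hx : x ∈ X) {f : ι → ℤ}
    (hf : ∀ i, P.coroot' i x = (f i : K) ∧ -1 ≤ f i ∧ f i ≤ 1) (k : ι) {T : Finset ι}
    (hT : Orth P T) :
    -1 ≤ f k - ∑ j ∈ T, f j * P.pairingIn ℤ j k ∧
      f k - ∑ j ∈ T, f j * P.pairingIn ℤ j k ≤ 1 := by
  have hx' : rs P T x ∈ X := rs_induction hT (fun y => y ∈ X)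
    (fun i y hy => h.ws.refl y hy i) hx
  obtain ⟨g, hg⟩ := vals h hx'
  have h1 := (hg k).1
  rw [rs, map_sub, coroot_sum, (hf k).1] at h1
  have h2 : f k - ∑ j ∈ T, f j * P.pairingIn ℤ j k = g k := by
    have h3 : ((f k - ∑ j ∈ T, f j * P.pairingIn ℤ j k : ℤ) : K) = ((g k : ℤ) : K) := by
      rw [← h1]
      push_cast
      congr 1
      refine Finset.sum_congr rfl fun j _ => ?_
      rw [(hf j).1]
    exact_mod_cast h3
  rw [h2]
  exact (hg k).2

/-- Pairs of a long and a short root. -/
theorem long_short [P.IsReduced] (h : USit P X s c) {a b : ι} (hl : len P a = 2 * len P b) :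
    (P.pairingIn ℤ a b = 0 ∧ P.pairingIn ℤ b a = 0) ∨
    (P.pairingIn ℤ a b = 2 ∧ P.pairingIn ℤ b a = 1) ∨
    (P.pairingIn ℤ a b = -2 ∧ P.pairingIn ℤ b a = -1) := by
  have hb := len_pos P b
  have h1 : a ≠ b := by rintro rfl; omega
  have h2 : P.root a ≠ -P.root b := fun h2 => by
    have := TR.len_of_neg h2
    omega
  have h3 := cases h h1 h2
  have h4 := pair_len P a b
  rw [hl] at h4
  rcases h3 with ⟨e1, e2⟩ | ⟨e1, e2⟩ | ⟨e1, e2⟩ | ⟨e1, e2⟩ | ⟨e1, e2⟩ | ⟨e1, e2⟩ | ⟨e1, e2⟩ <;>
    rw [e1, e2] at h4 ⊢ <;> omega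

/-- Pairs of roots of the same length. -/
theorem same [P.IsReduced] (h : USit P X s c) {a b : ι} (hl : len P a = len P b) :
    P.pairingIn ℤ a b = P.pairingIn ℤ b a := by
  have h4 := pair_len P a b
  rw [hl] at h4
  exact mul_right_cancel₀ (len_pos P b).ne' h4

/-- The difference of a long root and a short root. -/
theorem exists_diff [P.IsReduced] (h : USit P X s c) {a b : ι} (hl : len P a = 2 * len P b)
    (hab : P.pairingIn ℤ a b = 2) :
    ∃ k, P.root k = P.root a - P.root b ∧ len P k = len P b ∧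
      (∀ v, P.coroot' k v = 2 * P.coroot' a v - P.coroot' b v) := by
  have hb := len_pos P b
  have h1 : a ≠ b := by rintro rfl; omega
  obtain ⟨k, hk⟩ := P.root_sub_root_mem_of_pairingIn_pos (by omega : 0 < P.pairingIn ℤ a b) h1
  have e0 := fm_root_root P a b
  rw [hab] at e0
  have e1 : (len P k : K) = (len P b : K) := by
    rw [← fm_self, hk, map_sub, map_sub, LinearMap.sub_apply, LinearMap.sub_apply, fm_self,
      fm_self, fm_symm P (P.root b) (P.root a), hl]
    push_cast at e0 ⊢
    linear_combination -e0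
  have e1' : len P k = len P b := by exact_mod_cast e1
  refine ⟨k, hk, e1', fun v => ?_⟩
  have e2 := fm_root P v k
  rw [hk, map_sub, mul_sub, fm_root, fm_root, e1, hl] at e2
  have hne : (len P b : K) ≠ 0 := TR.len_ne b
  push_cast at e2
  apply mul_right_cancel₀ hne
  rw [← e2]
  ring

/-- The case of pairwise orthogonal short roots. -/
theorem case_short [P.IsReduced] [P.IsIrreducible] (h : USit P X s c) {b0 : ι}
    (hlen : ∀ k, len P k = len P b0 ∨ len P k = 2 * len P b0)
    (H : ∀ b c, len P b = len P b0 → len P c = len P b0 → b ≠ c → P.root b ≠ -P.root c →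
      P.pairingIn ℤ b c = 0) {x : M} (hx : x ∈ X) : -x ∈ X := by
  classical
  obtain ⟨f, hf⟩ := vals h hx
  by_cases hZ : ∃ b, len P b = len P b0 ∧ f b = 0
  · have h0 : x = 0 := by
      refine eq_zero_of_coroot' (P := P) {b | len P b = len P b0 ∧ f b = 0} hZ ?_ ?_
      · rintro j b ⟨hb, hfb⟩
        refine ⟨by rw [TR.len_perm]; exact hb, ?_⟩
        have h1 := (hf (P.reflectionPerm j b)).1
        rw [← coroot'_reflection, coroot_reflection, (hf b).1, (hf j).1, hfb] at h1
        have h2 : 0 - f j * P.pairingIn ℤ j b = f (P.reflectionPerm j b) := by exact_mod_cast h1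
        rw [← h2]
        have h3 := (hf (P.reflectionPerm j b)).2
        rw [← h2] at h3
        rcases hlen j with hj | hj
        · by_cases h4 : j = b
          · rw [h4, hfb]; ring
          · by_cases h5 : P.root j = -P.root b
            · have h6 := coroot_of_neg h5 x
              rw [(hf j).1, (hf b).1, hfb] at h6
              have h7 : f j = 0 := by
                have : (f j : K) = 0 := by rw [h6]; simp
                exact_mod_cast this
              rw [h7]; ring
            · rw [H j b hj hb h4 h5]; ring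
        · rcases long_short h (a := j) (b := b) (by rw [hj, hb]) with ⟨e, -⟩ | ⟨e, -⟩ | ⟨e, -⟩ <;>
            rw [e] at h3 ⊢ <;> omega
      · rintro b ⟨-, hfb⟩
        rw [(hf b).1, hfb]
        simp
    rw [h0, neg_zero, ← h0]
    exact hx
  · push Not at hZ
    let A : Finset ι := Finset.univ.filter fun b => len P b = len P b0 ∧ f b = 1
    have hmem : ∀ b, b ∈ A ↔ len P b = len P b0 ∧ f b = 1 := fun b => by
      simp [A]
    have hA : Orth P A := by
      intro b hb c hc hbc
      rw [hmem] at hb hc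
      refine H b c hb.1 hc.1 hbc fun h5 => ?_
      have h6 := coroot_of_neg h5 x
      rw [(hf b).1, (hf c).1, hb.2, hc.2] at h6
      have h7 : (1 : ℤ) = -1 := by exact_mod_cast h6
      omega
    have hy : rs P A x ∈ X := rs_induction hA (fun y => y ∈ X)
      (fun i y hy => h.ws.refl y hy i) hx
    have hneg : ∀ j ∈ A, P.coroot' j (rs P A x) = - P.coroot' j x := by
      intro j hj
      rw [rs, map_sub, coroot_sum, Finset.sum_eq_single j]
      · rw [pair_self]; push_cast; ring
      · intro k hk hkj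
        rw [hA k hk j hj hkj]
        simp
      · intro h; exact absurd hj h
    have hz : x + rs P A x = 0 := by
      refine eq_zero_of_coroot' (P := P) {b | len P b = len P b0} ⟨b0, rfl⟩ ?_ ?_
      · intro j b hb
        change len P (P.reflectionPerm j b) = len P b0
        rw [TR.len_perm]; exact hb
      · intro b hb
        have hb' : len P b = len P b0 := hb
        rw [map_add]
        have h1 := hZ b hb'
        have h2 := (hf b).2
        have h3 : f b = 1 ∨ f b = -1 := by omega
        rcases h3 with h3 | h3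
        · rw [hneg b ((hmem b).mpr ⟨hb', h3⟩), add_neg_cancel]
        · have h4 : f (P.reflectionPerm b b) = 1 := by
            have h5 := (hf (P.reflectionPerm b b)).1
            rw [coroot_ng, (hf b).1, h3] at h5
            have h6 : (1 : ℤ) = f (P.reflectionPerm b b) := by
              have : ((1 : ℤ) : K) = (f (P.reflectionPerm b b) : K) := by
                rw [← h5]; push_cast; ring
              exact_mod_cast this
            exact h6.symm
          have h5 := hneg (P.reflectionPerm b b) ((hmem _).mpr ⟨by rw [TR.len_perm]; exact hb', h4⟩)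
          rw [coroot_ng, coroot_ng, neg_neg] at h5
          linear_combination -h5
    have : -x = rs P A x := by
      rw [neg_eq_iff_add_eq_zero]; exact hz
    rw [this]
    exact hy

/-- The case of pairwise orthogonal long roots. -/
theorem case_long [P.IsReduced] [P.IsIrreducible] (h : USit P X s c) {b0 a0 : ι}
    (hlen : ∀ k, len P k = len P b0 ∨ len P k = 2 * len P b0) (ha0 : len P a0 = 2 * len P b0)
    (H : ∀ b c, len P b = 2 * len P b0 → len P c = 2 * len P b0 → b ≠ c →
      P.root b ≠ -P.root c → P.pairingIn ℤ b c = 0) {x : M} (hx : x ∈ X) : -x ∈ X := by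
  obtain ⟨f, hf⟩ := vals h hx
  by_cases hZ : ∃ a, len P a = 2 * len P b0 ∧ f a ≠ 0
  · have key : ∀ a, len P a = 2 * len P b0 → f a = 1 → -x ∈ X := by
      intro a ha hfa
      have h0 : (2 : K) • x - P.root a = 0 := by
        apply zero_of_nonorth (P := P) a
        intro j hj
        rw [map_sub, map_smul, (hf j).1, pair_cast, smul_eq_mul]
        by_cases h1 : j = a
        · rw [h1, hfa, pair_self]; push_cast; ring
        · by_cases h2 : P.root j = -P.root a
          · have h3 := coroot_of_neg h2 x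
            have h4 := coroot_of_neg h2 (P.root a)
            rw [pair_cast, pair_cast, pair_self] at h4
            rw [(hf j).1, (hf a).1, hfa] at h3
            rw [h3, h4]; push_cast; ring
          · rcases hlen j with hj' | hj'
            · have h3 := vals_refl h hx hf a j
              have h4 := (hf j).2
              rw [hfa] at h3
              rcases long_short h (a := a) (b := j) (by rw [ha, hj']) with ⟨e, e'⟩ | ⟨e, -⟩ | ⟨e, -⟩
              · exact absurd e' hj
              · rw [e] at h3 ⊢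
                have : f j = 1 := by omega
                rw [this]; push_cast; ring
              · rw [e] at h3 ⊢
                have : f j = -1 := by omega
                rw [this]; push_cast; ring
            · exact absurd (H j a hj' ha h1 h2) hj
      have h1 : -x = x - P.root a := by
        have h2 : P.root a = (2 : K) • x := (sub_eq_zero.mp h0).symm
        rw [h2, two_smul]; abel
      rw [h1]
      exact h.sub_mem' hx (by rw [(hf a).1, hfa]; simp)
    obtain ⟨a, ha, hfa⟩ := hZ
    have h1 := (hf a).2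
    rcases (by omega : f a = 1 ∨ f a = -1) with h2 | h2
    · exact key a ha h2
    · refine key (P.reflectionPerm a a) (by rw [TR.len_perm]; exact ha) ?_
      have h5 := (hf (P.reflectionPerm a a)).1
      rw [coroot_ng, (hf a).1, h2] at h5
      have h6 : ((1 : ℤ) : K) = (f (P.reflectionPerm a a) : K) := by
        rw [← h5]; push_cast; ring
      exact (by exact_mod_cast h6.symm)
  · push Not at hZ
    have h0 : x = 0 := by
      refine eq_zero_of_coroot' (P := P) {b | len P b = 2 * len P b0} ⟨a0, ha0⟩ ?_ ?_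
      · intro j b hb
        change len P (P.reflectionPerm j b) = 2 * len P b0
        rw [TR.len_perm]; exact hb
      · intro b hb
        rw [(hf b).1, hZ b hb]
        simp
    rw [h0, neg_zero, ← h0]
    exact hx

/-- If some short root has a nonorthogonal short root, every short root has one. -/
theorem exists_adj [P.IsReduced] [P.IsIrreducible] {b0 b1 c1 : ι}
    (hb1 : len P b1 = len P b0) (hc1 : len P c1 = len P b0) (hbc : b1 ≠ c1)
    (hbc' : P.root b1 ≠ -P.root c1) (hbc0 : P.pairingIn ℤ b1 c1 ≠ 0) (e : ι)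
    (he : len P e = len P b0) : ∃ d, len P d = len P b0 ∧ e ≠ d ∧
      P.root e ≠ -P.root d ∧ P.pairingIn ℤ e d ≠ 0 := by
  by_contra hcon
  have h0 : P.root e = 0 := by
    refine eq_zero_of_coroot' (P := P) {b | len P b = len P b0 ∧ ∃ d, len P d = len P b0 ∧
      b ≠ d ∧ P.root b ≠ -P.root d ∧ P.pairingIn ℤ b d ≠ 0} ⟨b1, hb1, c1, hc1, hbc, hbc', hbc0⟩
      ?_ ?_
    · rintro j b ⟨hb, d, hd, h1, h2, h3⟩
      refine ⟨by rw [TR.len_perm]; exact hb, P.reflectionPerm j d,
        by rw [TR.len_perm]; exact hd, ?_, ?_, ?_⟩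
      · intro h4
        exact h1 ((P.reflectionPerm j).injective h4)
      · intro h4
        rw [root_reflectionPerm, root_reflectionPerm, ← map_neg] at h4
        exact h2 ((P.reflection j).injective h4)
      · intro h4
        apply h3
        have h5 : ((P.pairingIn ℤ (P.reflectionPerm j b) (P.reflectionPerm j d) : ℤ) : K) =
            ((P.pairingIn ℤ b d : ℤ) : K) := by
          rw [← pair_cast, ← pair_cast, root_reflectionPerm, ← coroot'_reflection]
          simp
        rw [h4] at h5
        exact_mod_cast h5.symm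
    · rintro b ⟨hb, d, hd, h1, h2, h3⟩
      rw [pair_cast]
      have h4 : P.pairingIn ℤ e b = 0 := by
        by_contra h5
        refine hcon ⟨b, hb, ?_, ?_, h5⟩
        · rintro rfl
          exact hcon ⟨d, hd, h1, h2, h3⟩
        · intro h6
          refine hcon ⟨d, hd, ?_, ?_, ?_⟩
          · rintro rfl
            apply h2
            rw [h6, neg_neg]
          · intro h7
            apply h1
            apply P.root.injective
            rw [← neg_neg (P.root b), ← h6, h7, neg_neg]
          · intro h7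
            apply h3
            have h8 : ((P.pairingIn ℤ b d : ℤ) : K) = 0 := by
              have h9 : P.root b = -P.root e := by rw [h6, neg_neg]
              rw [← pair_cast, h9, map_neg, pair_cast, h7]
              simp
            exact_mod_cast h8
      rw [h4]
      simp
  exact P.ne_zero e h0

/-- A short root which is not orthogonal to a long one. -/
theorem exists_short [P.IsReduced] [P.IsIrreducible] (h : USit P X s c) {b0 a : ι}
    (ha : len P a = 2 * len P b0) : ∃ b, len P b = len P b0 ∧ P.pairingIn ℤ a b = 2 := by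
  by_contra hcon
  have h0 : P.root a = 0 := by
    refine eq_zero_of_coroot' (P := P) {b | len P b = len P b0} ⟨b0, rfl⟩ ?_ ?_
    · intro j b hb
      change len P (P.reflectionPerm j b) = len P b0
      rw [TR.len_perm]; exact hb
    · intro b hb
      have hb' : len P b = len P b0 := hb
      rw [pair_cast]
      rcases long_short h (a := a) (b := b) (by rw [ha, hb']) with ⟨e, -⟩ | ⟨e, -⟩ | ⟨e, -⟩
      · rw [e]; simp
      · exact absurd ⟨b, hb', e⟩ hcon
      · exact absurd ⟨P.reflectionPerm b b, by rw [TR.len_perm]; exact hb', by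
          rw [pair_ng_right, e]; norm_num⟩ hcon
  exact P.ne_zero a h0

/-- Two adjacent long roots are both nonorthogonal to a common short root. -/
theorem exists_common [P.IsReduced] [P.IsIrreducible] (h : USit P X s c) {b0 a g : ι}
    (ha : len P a = 2 * len P b0) (hg : len P g = 2 * len P b0)
    (hag : P.pairingIn ℤ g a = 1) :
    ∃ b, len P b = len P b0 ∧ P.pairingIn ℤ a b = 2 ∧ P.pairingIn ℤ g b = 2 := by
  obtain ⟨b, hb, hab⟩ := exists_short h ha
  obtain ⟨k, hk, hkl, hkv⟩ := exists_diff h (a := a) (b := b) (by rw [ha, hb]) hab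
  have h1 := hkv (P.root g)
  have h2 := hkv (P.root a)
  rw [pair_cast, pair_cast, pair_cast] at h1 h2
  have h1' : P.pairingIn ℤ g k = 2 * P.pairingIn ℤ g a - P.pairingIn ℤ g b := by
    exact_mod_cast h1
  have h2' : P.pairingIn ℤ a k = 2 * P.pairingIn ℤ a a - P.pairingIn ℤ a b := by
    exact_mod_cast h2
  rw [hag] at h1'
  rw [pair_self, hab] at h2'
  rcases long_short h (a := g) (b := b) (by rw [hg, hb]) with ⟨e, -⟩ | ⟨e, -⟩ | ⟨e, -⟩
  · exact ⟨k, by rw [hkl, hb], by rw [h2']; norm_num, by rw [h1', e]; norm_num⟩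
  · exact ⟨b, hb, hab, e⟩
  · exfalso
    have h3 := (h.bound g k).2
    rw [h1', e] at h3
    norm_num at h3

theorem final_arith {y u v w : ℤ} (s1 : -1 ≤ y ∧ y ≤ 1) (s2 : -1 ≤ y - u ∧ y - u ≤ 1)
    (s3 : -1 ≤ y - v ∧ y - v ≤ 1) (s4 : -1 ≤ y - w ∧ y - w ≤ 1)
    (s5 : -1 ≤ y - (u + v) ∧ y - (u + v) ≤ 1) (s6 : -1 ≤ y - (u + w) ∧ y - (u + w) ≤ 1)
    (s7 : -1 ≤ y - (v + w) ∧ y - (v + w) ≤ 1)
    (s8 : -1 ≤ y - (u + (v + w)) ∧ y - (u + (v + w)) ≤ 1) (hu : u = 1 ∨ u = -1)
    (hv : v = 1 ∨ v = -1) (hw : w = 1 ∨ w = -1) : False := by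
  omega

theorem odd_arith {y z w : ℤ} (h : y = 2 * z - w) (hw : w = 1 ∨ w = -1) (h1 : -2 ≤ y)
    (h2 : y ≤ 2) : y = 1 ∨ y = -1 := by
  omega

/-- Three orthogonal roots which do not vanish on a weight and a fourth one which is adjacent to
all of them. -/
theorem three (h : USit P X s c) {b k m d : ι} (hbk : P.pairingIn ℤ b k = 0)
    (hbm : P.pairingIn ℤ b m = 0) (hkm : P.pairingIn ℤ k m = 0) {x : M} (hx : x ∈ X) {f : ι → ℤ}
    (hf : ∀ i, P.coroot' i x = (f i : K) ∧ -1 ≤ f i ∧ f i ≤ 1)
    (hu : f b * P.pairingIn ℤ b d = 1 ∨ f b * P.pairingIn ℤ b d = -1)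
    (hv : f k * P.pairingIn ℤ k d = 1 ∨ f k * P.pairingIn ℤ k d = -1)
    (hw : f m * P.pairingIn ℤ m d = 1 ∨ f m * P.pairingIn ℤ m d = -1) : False := by
  classical
  have hkb : P.pairingIn ℤ k b = 0 := pair_zero P hbk
  have hmb : P.pairingIn ℤ m b = 0 := pair_zero P hbm
  have hmk : P.pairingIn ℤ m k = 0 := pair_zero P hkm
  have hbk' : b ≠ k := by
    rintro rfl
    rw [pair_self] at hbk
    norm_num at hbk
  have hbm' : b ≠ m := by
    rintro rfl
    rw [pair_self] at hbm
    norm_num at hbm
  have hkm' : k ≠ m := by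
    rintro rfl
    rw [pair_self] at hkm
    norm_num at hkm
  have horth : Orth P {b, k, m} := by
    intro i hi j hj hij
    simp only [Finset.mem_insert, Finset.mem_singleton] at hi hj
    rcases hi with rfl | rfl | rfl <;> rcases hj with rfl | rfl | rfl <;>
      first | exact absurd rfl hij | assumption
  have hsub : ∀ T : Finset ι, T ⊆ {b, k, m} → -1 ≤ f d - ∑ j ∈ T, f j * P.pairingIn ℤ j d ∧
      f d - ∑ j ∈ T, f j * P.pairingIn ℤ j d ≤ 1 :=
    fun T hT => vals_rs h hx hf d (horth.subset hT)
  have s2 := hsub {b} (by simp)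
  have s3 := hsub {k} (by simp)
  have s4 := hsub {m} (by simp)
  have s5 := hsub {b, k} (by intro i; simp; tauto)
  have s6 := hsub {b, m} (by intro i; simp; tauto)
  have s7 := hsub {k, m} (by intro i; simp; tauto)
  have s8 := hsub {b, k, m} (by intro i; simp)
  rw [Finset.sum_singleton] at s2 s3 s4
  rw [Finset.sum_pair hbk'] at s5
  rw [Finset.sum_pair hbm'] at s6
  rw [Finset.sum_pair hkm'] at s7
  rw [Finset.sum_insert (by simp [hbk', hbm']), Finset.sum_pair hkm'] at s8
  exact final_arith (hf d).2 s2 s3 s4 s5 s6 s7 s8 hu hv hw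

/-- Nonorthogonal long roots and nonorthogonal short roots exclude each other. -/
theorem case_both [P.IsReduced] [P.IsIrreducible] (h : USit P X s c) {b0 b1 c1 a g : ι}
    (hb1 : len P b1 = len P b0) (hc1 : len P c1 = len P b0) (hbc : b1 ≠ c1)
    (hbc' : P.root b1 ≠ -P.root c1) (hbc0 : P.pairingIn ℤ b1 c1 ≠ 0)
    (ha : len P a = 2 * len P b0) (hg : len P g = 2 * len P b0)
    (hag : P.pairingIn ℤ g a = 1) : False := by
  obtain ⟨b, hb, hab, hgb⟩ := exists_common h ha hg hag
  obtain ⟨k, hk, hkl, hkv⟩ := exists_diff h (a := a) (b := b) (by rw [ha, hb]) hab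
  obtain ⟨m, hm, hml, hmv⟩ := exists_diff h (a := g) (b := b) (by rw [hg, hb]) hgb
  obtain ⟨d, hd, hbd, hbd', hbd0⟩ := exists_adj hb1 hc1 hbc hbc' hbc0 b hb
  -- pairings
  have hpk : ∀ j, P.pairingIn ℤ j k = 2 * P.pairingIn ℤ j a - P.pairingIn ℤ j b := by
    intro j
    have h1 := hkv (P.root j)
    rw [pair_cast, pair_cast, pair_cast] at h1
    exact_mod_cast h1
  have hpm : ∀ j, P.pairingIn ℤ j m = 2 * P.pairingIn ℤ j g - P.pairingIn ℤ j b := by
    intro j
    have h1 := hmv (P.root j)
    rw [pair_cast, pair_cast, pair_cast] at h1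
    exact_mod_cast h1
  have hba : P.pairingIn ℤ b a = 1 := by
    rcases long_short h (a := a) (b := b) (by rw [ha, hb]) with ⟨e, -⟩ | ⟨-, e⟩ | ⟨e, -⟩
    · rw [hab] at e; norm_num at e
    · exact e
    · rw [hab] at e; norm_num at e
  have hbg : P.pairingIn ℤ b g = 1 := by
    rcases long_short h (a := g) (b := b) (by rw [hg, hb]) with ⟨e, -⟩ | ⟨-, e⟩ | ⟨e, -⟩
    · rw [hgb] at e; norm_num at e
    · exact e
    · rw [hgb] at e; norm_num at e
  have hbk : P.pairingIn ℤ b k = 0 := by rw [hpk, hba, pair_self]; norm_num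
  have hbm : P.pairingIn ℤ b m = 0 := by rw [hpm, hbg, pair_self]; norm_num
  have hkb : P.pairingIn ℤ k b = 0 := pair_zero P hbk
  have hgk : P.pairingIn ℤ g k = 0 := by rw [hpk, hag, hgb]; norm_num
  have hkg : P.pairingIn ℤ k g = 0 := pair_zero P hgk
  have hkm : P.pairingIn ℤ k m = 0 := by rw [hpm, hkg, hkb]; norm_num
  obtain ⟨x, hx, hxb⟩ := h.faith b
  obtain ⟨f, hf⟩ := vals h hx
  have hfb : f b = 1 := by
    have := (hf b).1
    rw [hxb] at this
    exact_mod_cast this.symm
  have hfk : f k = 2 * f a - f b := by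
    have := hkv x
    rw [(hf k).1, (hf a).1, (hf b).1] at this
    exact_mod_cast this
  have hfm : f m = 2 * f g - f b := by
    have := hmv x
    rw [(hf m).1, (hf g).1, (hf b).1] at this
    exact_mod_cast this
  have hdb : P.pairingIn ℤ d b = P.pairingIn ℤ b d := same h (by rw [hd, hb])
  have hdk : P.pairingIn ℤ k d = 2 * P.pairingIn ℤ d a - P.pairingIn ℤ b d := by
    rw [← same h (a := d) (b := k) (by rw [hd, hkl, hb]), hpk, hdb]
  have hdm : P.pairingIn ℤ m d = 2 * P.pairingIn ℤ d g - P.pairingIn ℤ b d := by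
    rw [← same h (a := d) (b := m) (by rw [hd, hml, hb]), hpm, hdb]
  -- the pairings with `d` are odd
  have hbd1 : P.pairingIn ℤ b d = 1 ∨ P.pairingIn ℤ b d = -1 := by
    rcases cases h hbd hbd' with ⟨e, -⟩ | ⟨e, -⟩ | ⟨e, -⟩ | ⟨e, -⟩ | ⟨e, e'⟩ | ⟨e, -⟩ | ⟨e, e'⟩
    · exact absurd e hbd0
    · exact Or.inl e
    · exact Or.inr e
    · exact Or.inl e
    · rw [hdb, e] at e'; norm_num at e'
    · exact Or.inr e
    · rw [hdb, e] at e'; norm_num at e'
  have hkd1 := odd_arith hdk hbd1 (h.bound k d).1 (h.bound k d).2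
  have hmd1 := odd_arith hdm hbd1 (h.bound m d).1 (h.bound m d).2
  have hfk1 := odd_arith hfk (Or.inl hfb) (by have := (hf k).2.1; omega)
    (by have := (hf k).2.2; omega)
  have hfm1 := odd_arith hfm (Or.inl hfb) (by have := (hf m).2.1; omega)
    (by have := (hf m).2.2; omega)
  refine three h hbk hbm hkm hx hf (d := d) ?_ ?_ ?_
  · rw [hfb, one_mul]; exact hbd1
  · rcases hfk1 with e | e <;> rcases hkd1 with e' | e' <;> rw [e, e'] <;> norm_num
  · rcases hfm1 with e | e <;> rcases hmd1 with e' | e' <;> rw [e, e'] <;> norm_num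

end RE

/-- RE: two root lengths force `X = -X`. -/
theorem USit.neg_of_len [P.IsReduced] [P.IsIrreducible] (h : USit P X s c)
    (_hspan : P.rootSpan K = ⊤) {i j : ι} (hij : len P i ≠ len P j) : ∀ x ∈ X, -x ∈ X := by
  -- the short length
  obtain ⟨b0, a0, ha0⟩ : ∃ b0 a0, len P a0 = 2 * len P b0 := by
    rcases RE.len3 h i j with h1 | h1 | h1
    · exact absurd h1 hij
    · exact ⟨j, i, h1⟩
    · exact ⟨i, j, h1⟩
  have hlen : ∀ k, len P k = len P b0 ∨ len P k = 2 * len P b0 := by
    intro k
    have h1 := RE.len3 h k b0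
    have h2 := RE.len3 h k a0
    have h3 := len_pos P k
    have h4 := len_pos P b0
    rw [ha0] at h2
    omega
  intro x hx
  by_cases H1 : ∀ b c, len P b = len P b0 → len P c = len P b0 → b ≠ c → P.root b ≠ -P.root c →
      P.pairingIn ℤ b c = 0
  · exact RE.case_short h hlen H1 hx
  by_cases H2 : ∀ b c, len P b = 2 * len P b0 → len P c = 2 * len P b0 → b ≠ c →
      P.root b ≠ -P.root c → P.pairingIn ℤ b c = 0
  · exact RE.case_long h hlen ha0 H2 hx
  exfalso
  push Not at H1 H2
  obtain ⟨b1, c1, hb1, hc1, h1, h2, h3⟩ := H1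
  obtain ⟨g, a, hg, ha, h4, h5, h6⟩ := H2
  have h7 := RE.cases h h4 h5
  have h8 := pair_len P g a
  have h9 := len_pos P b0
  rw [hg, ha] at h8
  have h10 : P.pairingIn ℤ g a = P.pairingIn ℤ a g :=
    mul_right_cancel₀ (by omega : 2 * len P b0 ≠ 0) h8
  rcases (by omega : P.pairingIn ℤ g a = 1 ∨ P.pairingIn ℤ g a = -1) with h11 | h11
  · exact RE.case_both h hb1 hc1 h1 h2 h3 ha hg h11
  · refine RE.case_both h hb1 hc1 h1 h2 h3 ha
      (g := P.reflectionPerm g g) (by rw [TR.len_perm]; exact hg) ?_
    rw [RE.pair_ng_left, h11, neg_neg]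

end UN
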